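import Pool.Agent.Hhelper78.Cyc.Final

open Pool.Agent.Hhelper78.Cyc Finset Filter Topology

/-- `h(n) ≤ n + |S| + O(n^{1/4})` for a Sidon set `S ⊆ {1, …, n}`, `h(n) ≤ n + √n + 88 n^{1/4}`,
`h(n) ≥ n - 2 + |A|` for every Sidon set `{0, n-2} ⊆ A ⊆ {0, …, n-2}`, and
`(h(n) - n)/√n → 1`. -/
theorem Pool.Agent.Results.MP_838d6f_co.SidonComparison.result :
    (∃ C : ℝ, ∀ n : ℕ, 3 ≤ n → ∃ S : Finset ℕ, S ⊆ Icc 1 n ∧ IsSidon S ∧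
      (h n : ℝ) ≤ n + S.card + C * (n : ℝ) ^ (1 / 4 : ℝ)) ∧
    (∀ n : ℕ, 3 ≤ n → (h n : ℝ) ≤ n + √(n : ℝ) + 88 * (n : ℝ) ^ (1 / 4 : ℝ)) ∧
    (∀ n : ℕ, 3 ≤ n → ∀ A : Finset ℕ, A ⊆ range (n - 1) → 0 ∈ A → n - 2 ∈ A → IsSidon A →
      n - 2 + A.card ≤ h n) ∧
    Tendsto (fun n : ℕ => ((h n : ℝ) - n) / √(n : ℝ)) atTop (𝓝 1) :=
  ⟨h_le_sidon_all, h_le, fun _ hn _ hA h0 h1 hS => le_h hn hA h0 h1 hS, tendsto_h⟩
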